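import Mathlib

namespace Pool.Agent.H.MP_d93d44_co.A

open Matrix

variable {n : Type} [Fintype n] [DecidableEq n]

theorem exp_sum (M : Matrix n n ℂ) :
    HasSum (fun k : ℕ => ((k.factorial : ℂ)⁻¹) • M ^ k) (NormedSpace.exp M) :=
  open scoped Matrix.Norms.Operator in NormedSpace.exp_series_hasSum_exp' M

theorem exp_eig (M : Matrix n n ℂ) (w : n → ℂ) (l : ℂ) (h : M *ᵥ w = l • w) :
    NormedSpace.exp M *ᵥ w = Complex.exp l • w := by
  have h2 := (exp_sum M).map
    (AddMonoidHom.mk' (fun N : Matrix n n ℂ => N *ᵥ w) fun a b => add_mulVec a b w)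
    (Continuous.matrix_mulVec continuous_id continuous_const)
  have h3 : ∀ k : ℕ, M ^ k *ᵥ w = l ^ k • w := fun k => by
    induction k with
    | zero => simp
    | succ k ih => rw [pow_succ, ← mulVec_mulVec, h, mulVec_smul, ih, smul_smul, pow_succ, mul_comm]
  have h4 := (NormedSpace.exp_series_hasSum_exp' (𝕂 := ℂ) l).smul_const w
  rw [Complex.exp_eq_exp_ℂ]
  refine h2.unique ?_
  convert h4 using 2 with k
  simp [smul_mulVec, h3, smul_smul]

noncomputable def proj (A : Matrix n n ℝ) (θ : ℝ) : EuclideanSpace ℝ n →L[ℝ] EuclideanSpace ℝ n :=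
  (Module.End.eigenspace (toEuclideanLin A) θ).starProjection

theorem mem_eig (A : Matrix n n ℝ) (θ : ℝ) (w : n → ℝ) (h : A *ᵥ w = θ • w) :
    WithLp.toLp 2 w ∈ Module.End.eigenspace (toEuclideanLin A) θ := by
  rw [Module.End.mem_eigenspace_iff]
  exact congrArg (WithLp.toLp 2) h

theorem proj_same (A : Matrix n n ℝ) (θ : ℝ) (w : n → ℝ) (h : A *ᵥ w = θ • w) :
    proj A θ (WithLp.toLp 2 w) = WithLp.toLp 2 w :=
  Submodule.starProjection_eq_self_iff.2 (mem_eig A θ w h)

theorem proj_ne (A : Matrix n n ℝ) (hA : A.IsHermitian) (θ μ : ℝ) (w : n → ℝ)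
    (h : A *ᵥ w = μ • w) (hne : μ ≠ θ) : proj A θ (WithLp.toLp 2 w) = 0 := by
  refine (Submodule.starProjection_apply_eq_zero_iff _).2 fun u hu => ?_
  have h1 := Module.End.mem_eigenspace_iff.1 hu
  have h2 := Module.End.mem_eigenspace_iff.1 (mem_eig A μ w h)
  have h3 := isSymmetric_toEuclideanLin_iff.2 hA u (WithLp.toLp 2 w)
  rw [h1, h2, real_inner_smul_left, real_inner_smul_right] at h3
  exact (mul_eq_zero.1 (by rw [sub_mul, h3, sub_self])).resolve_left (sub_ne_zero.2 hne)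

theorem proj_supp (A : Matrix n n ℝ) (θ : ℝ) (w : n → ℝ) (h : A *ᵥ w = θ • w) (a : n)
    (ha : w a ≠ 0) : proj A θ (EuclideanSpace.single a 1) ≠ 0 := fun e => by
  have := (Submodule.starProjection_apply_eq_zero_iff _).1 e _ (mem_eig A θ w h)
  rw [EuclideanSpace.inner_single_right] at this
  exact ha (by simpa using this)

end Pool.Agent.H.MP_d93d44_co.A
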