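import Pool.Agent.H.MP_d93d44_co.A

namespace Pool.Agent.H.MP_d93d44_co.B

open Matrix Finset Pool.Agent.H.MP_d93d44_co.A

def cl (v : ℕ) : Fin 6 :=
  if v = 0 then 0 else if v = 1 then 3 else if v < 10 then 1 else if v < 18 then 4
  else if v < 34 then 2 else 5

def rel (u v : ℕ) : Bool :=
  match (cl u).1, (cl v).1 with
  | 0, 1 => true
  | 3, 4 => true
  | 1, 1 => (u + 8 - v) % 8 != 1 && (u + 8 - v) % 8 != 7
  | 4, 4 => (u + 8 - v) % 8 == 1
  | 1, 4 => (u + v) % 4 != 0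
  | 1, 2 => u % 4 == v % 4
  | 4, 5 => u % 4 == v % 4
  | 2, 2 => (u - 2) / 8 == (v - 2) / 8
  | 5, 5 => (u - 2) / 8 == (v - 2) / 8
  | _, _ => false

def G : SimpleGraph (Fin 50) := SimpleGraph.fromRel fun u v => rel u v = true

instance : DecidableRel G.Adj := fun u v =>
  decidable_of_iff _ (SimpleGraph.fromRel_adj _ u v).symm

def Q : Fin 6 → Fin 6 → ℕ :=
  ![![0, 8, 0, 0, 0, 0], ![1, 5, 4, 0, 6, 0], ![0, 2, 7, 0, 0, 0],
    ![0, 0, 0, 0, 8, 0], ![0, 6, 0, 1, 2, 4], ![0, 0, 0, 0, 2, 7]]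

theorem cnt : ∀ (v : Fin 50) (k : Fin 6),
    ((G.neighborFinset v).filter fun u : Fin 50 => cl u = k).card = Q (cl v) k := by decide +kernel

theorem lift (w : Fin 6 → ℝ) (v : Fin 50) :
    (G.adjMatrix ℝ *ᵥ fun u => w (cl u)) v = ∑ k, Q (cl v) k * w k := by
  rw [SimpleGraph.adjMatrix_mulVec_apply,
    ← sum_fiberwise (s := G.neighborFinset v) (g := fun u : Fin 50 => cl u)]
  refine sum_congr rfl fun k _ => ?_
  rw [← cnt, ← nsmul_eq_mul, ← sum_const]
  exact sum_congr rfl fun u hu => by rw [(mem_filter.1 hu).2]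

noncomputable def ev (c θ : ℝ) : Fin 50 → ℝ := fun u =>
  ![8 * (θ - 7), θ * (θ - 7), 2 * θ, (c - 4) / 2 * (8 * (θ - 7)), (c - 4) / 2 * (θ * (θ - 7)),
    (c - 4) / 2 * (2 * θ)] (cl u)

theorem eig (c θ : ℝ) (hc : c ^ 2 - 7 * c + 8 = 0) (h : (θ - c) * ((θ - c) ^ 2 - 41) = 0) :
    G.adjMatrix ℝ *ᵥ ev c θ = θ • ev c θ := by
  funext v
  unfold ev
  rw [lift, Pi.smul_apply, smul_eq_mul]
  generalize cl v = k
  fin_cases k <;> simp [Q, Fin.sum_univ_six]
  · ring
  · linear_combination (-1) * h + (3 * θ - c - 7) * hc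
  · ring
  · ring
  · linear_combination (-(c - 4) / 2) * h +
      ((c - 4) / 2 * (3 * θ - c - 7) - 3 / 2 * θ * (θ - 7)) * hc
  · ring

noncomputable def d : ℝ := √41

theorem d2 : d ^ 2 = 41 := Real.sq_sqrt (by norm_num)

theorem clf : ∀ u : Fin 50, (cl u = 0 ↔ u = 0) ∧ (cl u = 3 ↔ u = 1) := by decide

theorem dec (c : ℝ) :
    Pi.single (0 : Fin 50) (1 : ℝ) + ((c - 4) / 2) • Pi.single (1 : Fin 50) (1 : ℝ) =
      ((c ^ 2 - 41) / 2296) • ev c c + (-c * (c - d) / 4592) • ev c (c + d) +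
        (-c * (c + d) / 4592) • ev c (c - d) := by
  funext u
  have h := d2
  simp only [Pi.add_apply, Pi.smul_apply, smul_eq_mul, Pi.single_apply, ← (clf u).1,
    ← (clf u).2, ev]
  generalize cl u = k
  fin_cases k <;> simp
  · linear_combination (-c / 287) * h
  · linear_combination (7 * c - c ^ 2) / 2296 * h
  · linear_combination (-c / 1148) * h
  · linear_combination (-(c - 4) / 2 * c / 287) * h
  · linear_combination ((c - 4) / 2) * (7 * c - c ^ 2) / 2296 * h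
  · linear_combination (-(c - 4) / 2 * c / 1148) * h

noncomputable def s : ℝ := √17

theorem s2 : s ^ 2 = 17 := Real.sq_sqrt (by norm_num)

theorem s_pos : 0 < s := Real.sqrt_pos.2 (by norm_num)

theorem d_pos : 0 < d := Real.sqrt_pos.2 (by norm_num)

theorem s_lt : s < d := Real.sqrt_lt_sqrt (by norm_num) (by norm_num)

theorem hp : ((7 + s) / 2) ^ 2 - 7 * ((7 + s) / 2) + 8 = 0 := by linear_combination s2 / 4

theorem hm : ((7 - s) / 2) ^ 2 - 7 * ((7 - s) / 2) + 8 = 0 := by linear_combination s2 / 4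

theorem e0 (c : ℝ) (hc : c ^ 2 - 7 * c + 8 = 0) : G.adjMatrix ℝ *ᵥ ev c c = c • ev c c :=
  eig c c hc (by ring)

theorem e1 (c : ℝ) (hc : c ^ 2 - 7 * c + 8 = 0) :
    G.adjMatrix ℝ *ᵥ ev c (c + d) = (c + d) • ev c (c + d) :=
  eig c _ hc (by linear_combination d * d2)

theorem e2 (c : ℝ) (hc : c ^ 2 - 7 * c + 8 = 0) :
    G.adjMatrix ℝ *ᵥ ev c (c - d) = (c - d) • ev c (c - d) :=
  eig c _ hc (by linear_combination (-d) * d2)

noncomputable def t : ℝ := 2 * Real.pi / d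

noncomputable def U : Matrix (Fin 50) (Fin 50) ℂ :=
  NormedSpace.exp (((t : ℂ) * Complex.I) • G.adjMatrix ℂ)

theorem U_eig (w : Fin 50 → ℝ) (θ : ℝ) (h : G.adjMatrix ℝ *ᵥ w = θ • w) :
    U *ᵥ (fun u => (w u : ℂ)) = Complex.exp (t * Complex.I * θ) • fun u => (w u : ℂ) := by
  apply exp_eig
  rw [smul_mulVec, mul_smul (_ * _)]
  congr 1
  funext v
  have := congrArg Complex.ofReal (congrFun h v)
  simpa using this

noncomputable def z (c : ℝ) : ℂ := Complex.exp (t * Complex.I * c)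

theorem td : (t : ℂ) * Complex.I * d = 2 * Real.pi * Complex.I := by
  have : (d : ℂ) ≠ 0 := by exact_mod_cast d_pos.ne'
  unfold t
  push_cast
  field_simp

theorem U_u (c : ℝ) (hc : c ^ 2 - 7 * c + 8 = 0) (v : Fin 50) :
    U v 0 + ((c - 4) / 2 : ℝ) * U v 1 =
      z c * ((if v = 0 then 1 else 0) + ((c - 4) / 2 : ℝ) * if v = 1 then 1 else 0) := by
  have h0 := U_eig _ _ (e0 c hc)
  have h1 := U_eig _ _ (e1 c hc)
  have h2 := U_eig _ _ (e2 c hc)
  rw [Complex.ofReal_add, mul_add, td, Complex.exp_add, Complex.exp_two_pi_mul_I, mul_one] at h1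
  rw [Complex.ofReal_sub, mul_sub, td, Complex.exp_sub, Complex.exp_two_pi_mul_I, div_one] at h2
  have h : (Pi.single (0 : Fin 50) (1 : ℂ) + (((c - 4) / 2 : ℝ) : ℂ) • Pi.single (1 : Fin 50) (1 : ℂ)
      : Fin 50 → ℂ) = (((c ^ 2 - 41) / 2296 : ℝ) : ℂ) • (fun u => (ev c c u : ℂ)) +
      ((-c * (c - d) / 4592 : ℝ) : ℂ) • (fun u => (ev c (c + d) u : ℂ)) +
      ((-c * (c + d) / 4592 : ℝ) : ℂ) • fun u => (ev c (c - d) u : ℂ) := by
    funext u
    have := congrArg Complex.ofReal (congrFun (dec c) u)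
    simp only [Pi.add_apply, Pi.smul_apply, smul_eq_mul, Pi.single_apply, Complex.ofReal_add,
      Complex.ofReal_mul, apply_ite Complex.ofReal, Complex.ofReal_one, Complex.ofReal_zero]
      at this ⊢
    exact this
  have k := congrArg (U *ᵥ ·) h
  simp only [mulVec_add, mulVec_smul, h0, h1, h2, smul_comm _ (Complex.exp _), ← smul_add] at k
  rw [← h] at k
  have := congrFun k v
  simpa [Pi.single_apply, z] using this

theorem U_symm (u v : Fin 50) : U u v = U v u :=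
  ((Matrix.IsSymm.smul G.isSymm_adjMatrix _).exp.apply v u)

theorem z_ne : z ((7 + s) / 2) ≠ z ((7 - s) / 2) := fun h => by
  obtain ⟨k, hk⟩ := Complex.exp_eq_exp_iff_exists_int.1 h
  rw [← td] at hk
  have h1 : (t : ℂ) * Complex.I ≠ 0 := mul_ne_zero (by
    exact_mod_cast (div_pos (by positivity) d_pos).ne') Complex.I_ne_zero
  have h2 : ((s : ℝ) : ℂ) = ((k * d : ℝ) : ℂ) := by
    apply mul_left_cancel₀ h1
    push_cast at hk ⊢
    linear_combination hk
  have h3 : s = k * d := Complex.ofReal_injective h2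
  have a := s_pos
  have b := s_lt
  have c := d_pos
  have k0 : (0 : ℝ) < k := by nlinarith
  have k1 : (k : ℝ) < 1 := by nlinarith
  have : 0 < k := by exact_mod_cast k0
  have : k < 1 := by exact_mod_cast k1
  omega

theorem col (v : Fin 50) : (s : ℂ) / 2 * U v 1 =
      (z ((7 + s) / 2) - z ((7 - s) / 2)) * (if v = 0 then 1 else 0) +
      (z ((7 + s) / 2) * (s - 1) / 4 + z ((7 - s) / 2) * (s + 1) / 4) * (if v = 1 then 1 else 0) ∧
    (s : ℂ) / 2 * U v 0 =
      (z ((7 + s) / 2) * (s + 1) / 4 + z ((7 - s) / 2) * (s - 1) / 4) * (if v = 0 then 1 else 0) +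
      (z ((7 + s) / 2) - z ((7 - s) / 2)) * (if v = 1 then 1 else 0) := by
  have a := U_u _ hp v
  have b := U_u _ hm v
  have c : (s : ℂ) ^ 2 = 17 := by exact_mod_cast s2
  push_cast at a b
  constructor
  · linear_combination a - b
  · linear_combination ((s : ℂ) + 1) / 4 * a + ((s : ℂ) - 1) / 4 * b +
      (z ((7 + s) / 2) - z ((7 - s) / 2)) * (if v = 1 then 1 else 0) / 16 * c

theorem sC : (s : ℂ) / 2 ≠ 0 := div_ne_zero (by exact_mod_cast s_pos.ne') two_ne_zero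

theorem off (v : Fin 50) (h0 : v ≠ 0) (h1 : v ≠ 1) : U v 0 = 0 ∧ U v 1 = 0 := by
  have := col v
  simp only [h0, h1, if_false, mul_zero, add_zero] at this
  exact ⟨(mul_eq_zero.1 this.2).resolve_left sC, (mul_eq_zero.1 this.1).resolve_left sC⟩

theorem U01 : U 0 1 ≠ 0 := fun h => by
  have := (col 0).1
  rw [h] at this
  exact z_ne (by simpa [sub_eq_zero] using this.symm)

theorem U00 : U 0 0 ≠ 0 := fun h => by
  have := (col 0).2
  rw [h] at this
  have e : z ((7 + s) / 2) * ((s + 1 : ℝ) : ℂ) = -(z ((7 - s) / 2) * ((s - 1 : ℝ) : ℂ)) := by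
    simp only [mul_zero, if_true, mul_one, zero_ne_one, if_false, add_zero] at this
    push_cast
    linear_combination (-4) * this
  have nz : ∀ c : ℝ, ‖z c‖ = 1 := fun c => by
    rw [z, mul_right_comm, ← Complex.ofReal_mul, Complex.norm_exp_ofReal_mul_I]
  have := congrArg (fun x => ‖x‖ ^ 2) e
  simp only [norm_neg, norm_mul, nz, one_mul, Complex.norm_real, Real.norm_eq_abs, sq_abs] at this
  nlinarith [s_pos]

end Pool.Agent.H.MP_d93d44_co.B
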